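import Pool.Agent.Helper62.EC.Cls

/-!
# Hypersurfaces in affine spaces decide the schemes of a given dimension

For a property of schemes which is closed under closed-open decompositions.
-/

set_option autoImplicit false

open CategoryTheory AlgebraicGeometry Pool.Agent.Y116.UV Pool.Agent.Helper62.EC

namespace Pool.Agent.Helper19.UA

section

variable {R : Type} [CommRing R] {sep : Prop} {P : Sch R → Prop} (hP : Cls sep P)

include hP

variable {A : Type} [CommRing A] [Algebra R A] [Algebra.FiniteType R A]

/-- If `h J ⊆ K ⊆ J`, then `A / K` and `A / J` have the same localisation at `h`. -/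
lemma loc_congr (J K : Ideal A) (hKJ : K ≤ J) (h : A) (hJ : ∀ x ∈ J, h * x ∈ K)
    (h1 : P (aff R (Localization.Away (Ideal.Quotient.mk K h)))) :
    P (aff R (Localization.Away (Ideal.Quotient.mk J h))) := by
  let B := A ⧸ K
  let S := Localization.Away (Ideal.Quotient.mk J h)
  let f : B →+* S := (algebraMap (A ⧸ J) S).comp (Ideal.Quotient.factor hKJ)
  let _ : Algebra B S := f.toAlgebra
  have hf : ∀ x : A, algebraMap B S (Ideal.Quotient.mk K x) =
      algebraMap (A ⧸ J) S (Ideal.Quotient.mk J x) := fun x => rfl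
  have hloc : IsLocalization.Away (Ideal.Quotient.mk K h) S := by
    have hu : IsUnit (algebraMap B S (Ideal.Quotient.mk K h)) := by
      rw [hf]
      exact IsLocalization.Away.algebraMap_isUnit (S := S) (Ideal.Quotient.mk J h)
    refine ⟨?_, ?_, ?_⟩
    · rintro ⟨_, n, rfl⟩
      change IsUnit (algebraMap B S ((Ideal.Quotient.mk K h) ^ n))
      rw [map_pow]
      exact hu.pow n
    · intro z
      obtain ⟨⟨y, ⟨_, n, rfl⟩⟩, hy⟩ := IsLocalization.surj
        (Submonoid.powers (Ideal.Quotient.mk J h)) z
      obtain ⟨y, rfl⟩ := Ideal.Quotient.mk_surjective y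
      refine ⟨(Ideal.Quotient.mk K y, ⟨(Ideal.Quotient.mk K h) ^ n, n, rfl⟩), ?_⟩
      have h9 : algebraMap B S ((Ideal.Quotient.mk K h) ^ n) =
          algebraMap (A ⧸ J) S ((Ideal.Quotient.mk J h) ^ n) := by
        rw [← map_pow (Ideal.Quotient.mk K), hf, map_pow]
      change z * algebraMap B S ((Ideal.Quotient.mk K h) ^ n) =
        algebraMap B S (Ideal.Quotient.mk K y)
      rw [h9, hf]
      exact hy
    · intro x y hxy
      obtain ⟨x, rfl⟩ := Ideal.Quotient.mk_surjective x
      obtain ⟨y, rfl⟩ := Ideal.Quotient.mk_surjective y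
      rw [hf, hf] at hxy
      obtain ⟨⟨_, n, rfl⟩, hc⟩ := (IsLocalization.eq_iff_exists
        (Submonoid.powers (Ideal.Quotient.mk J h)) S).mp hxy
      have h6 : Ideal.Quotient.mk J (h ^ n * x - h ^ n * y) = 0 := by
        rw [map_sub, map_mul, map_mul, map_pow]
        exact sub_eq_zero.mpr hc
      rw [Ideal.Quotient.eq_zero_iff_mem] at h6
      refine ⟨⟨(Ideal.Quotient.mk K h) ^ (n + 1), n + 1, rfl⟩, ?_⟩
      change (Ideal.Quotient.mk K h) ^ (n + 1) * _ = (Ideal.Quotient.mk K h) ^ (n + 1) * _
      rw [← map_pow, ← map_mul, ← map_mul, ← sub_eq_zero, ← map_sub,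
        Ideal.Quotient.eq_zero_iff_mem]
      have h7 : h ^ (n + 1) * x - h ^ (n + 1) * y = h * (h ^ n * x - h ^ n * y) := by ring
      rw [h7]
      exact hJ _ h6
  let e : Localization.Away (Ideal.Quotient.mk K h) ≃ₐ[B] S :=
    IsLocalization.algEquiv (Submonoid.powers (Ideal.Quotient.mk K h))
      (Localization.Away (Ideal.Quotient.mk K h)) S
  let e2 : Localization.Away (Ideal.Quotient.mk K h) ≃ₐ[R] S :=
    AlgEquiv.ofRingEquiv (f := e.toRingEquiv) (by
      intro r
      have h8 : algebraMap R (Localization.Away (Ideal.Quotient.mk K h)) r =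
        algebraMap B _ (algebraMap R B r) := IsScalarTower.algebraMap_apply _ _ _ _
      have h9 : algebraMap R S r = algebraMap B S (algebraMap R B r) := rfl
      change e (algebraMap R _ r) = _
      rw [h8, h9, e.commutes])
  have : Algebra.FiniteType R (Localization.Away (Ideal.Quotient.mk K h)) :=
    Algebra.FiniteType.trans (S := A ⧸ K) inferInstance inferInstance
  exact iso_alg hP e2 h1

/-- From one equation to several equations. -/
lemma closed_of_hyp (hA : P (aff R A)) (hF : ∀ F : A, P (aff R (A ⧸ Ideal.span {F}))) :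
    ∀ (n : ℕ) (l : List A), l.length = n → P (aff R (A ⧸ Ideal.span {x | x ∈ l})) := by
  intro n
  induction n with
  | zero =>
    intro l hl
    have h0 : l = [] := List.length_eq_zero_iff.mp hl
    subst h0
    have h1 : ({x | x ∈ ([] : List A)} : Set A) = ∅ := by
      ext x
      simp
    rw [h1, Ideal.span_empty]
    exact iso_alg hP (AlgEquiv.quotientBot R A).symm hA
  | succ n ih =>
    intro l hl
    obtain ⟨h, t, rfl⟩ := List.exists_cons_of_length_eq_add_one hl
    have ht : t.length = n := by simpa using hl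
    let K : Ideal A := Ideal.span {x | x ∈ t.map (· * h)}
    let J : Ideal A := Ideal.span {x | x ∈ t}
    have hKh : K ≤ Ideal.span {h} := by
      rw [Ideal.span_le]
      intro x hx
      obtain ⟨y, hy, rfl⟩ := List.mem_map.mp hx
      exact Ideal.mem_span_singleton'.mpr ⟨y, rfl⟩
    have hKJ : K ≤ J := by
      rw [Ideal.span_le]
      intro x hx
      obtain ⟨y, hy, rfl⟩ := List.mem_map.mp hx
      exact J.mul_mem_right _ (Ideal.subset_span hy)
    have hhJ : ∀ x ∈ J, h * x ∈ K := by
      intro x hx
      induction hx using Submodule.span_induction with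
      | mem x hx =>
        rw [mul_comm]
        exact Ideal.subset_span (List.mem_map.mpr ⟨x, hx, rfl⟩)
      | zero => rw [mul_zero]; exact K.zero_mem
      | add x y _ _ hx hy => rw [mul_add]; exact K.add_mem hx hy
      | smul a x _ hx =>
        rw [smul_eq_mul, mul_left_comm]
        exact K.mul_mem_left _ hx
    have h1 : P (aff R (A ⧸ K)) := ih _ (by rw [List.length_map, ht])
    have h2 : P (aff R ((A ⧸ K) ⧸ Ideal.span {Ideal.Quotient.mk K h})) := by
      apply quot_mk hP
      rw [sup_eq_right.mpr hKh]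
      exact hF h
    have h3 := loc_congr hP J K hKJ h hhJ (ring_open hP _ h2 h1)
    have h4 : P (aff R (A ⧸ J)) := ih _ ht
    have h5 : P (aff R ((A ⧸ J) ⧸ Ideal.span {Ideal.Quotient.mk J h})) := ring_closed hP _ h4 h3
    have h6 : Ideal.map (Ideal.Quotient.mkₐ R J) (Ideal.span {h}) =
        Ideal.span {Ideal.Quotient.mk J h} := by
      rw [Ideal.map_span, Set.image_singleton]
      rfl
    rw [← h6] at h5
    have h7 := iso_alg hP (DoubleQuot.quotQuotEquivQuotSupₐ R J (Ideal.span {h})) h5
    have h8 : J ⊔ Ideal.span {h} = Ideal.span {x | x ∈ h :: t} := by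
      rw [← Ideal.span_union]
      congr 1
      ext x
      simp
    rw [← h8]
    exact h7

/-- From hypersurfaces to all closed subschemes. -/
theorem closed_all [IsNoetherianRing R] (hA : P (aff R A))
    (hF : ∀ F : A, P (aff R (A ⧸ Ideal.span {F}))) (I : Ideal A) : P (aff R (A ⧸ I)) := by
  have hN : IsNoetherianRing A := Algebra.FiniteType.isNoetherianRing R A
  obtain ⟨s, hs⟩ := (isNoetherianRing_iff_ideal_fg A).mp hN I
  have h1 := closed_of_hyp hP hA hF _ s.toList rfl
  have h2 : ({x | x ∈ s.toList} : Set A) = (s : Set A) := by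
    ext x
    simp
  rw [h2] at h1
  have h3 : Ideal.span (s : Set A) = I := hs
  rwa [h3] at h1

/-- closed subschemes -/
lemma of_surj {N : ℕ} (hA : ∀ I : Ideal (MvPolynomial (Fin N) R),
    P (aff R (MvPolynomial (Fin N) R ⧸ I))) {L : Type} [CommRing L] [Algebra R L]
    (φ : MvPolynomial (Fin N) R →ₐ[R] L) (hs : Function.Surjective φ) : P (aff R L) :=
  iso_alg hP (Ideal.quotientKerAlgEquivOfSurjective hs) (hA _)

/-- locally closed subschemes of affine spaces -/
lemma p_emb {N : ℕ} (hA : ∀ I : Ideal (MvPolynomial (Fin N) R),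
    P (aff R (MvPolynomial (Fin N) R ⧸ I))) {L : Type} [CommRing L] [Algebra R L]
    (φ : MvPolynomial (Fin N) R →ₐ[R] L) (g : MvPolynomial (Fin N) R) (hg : IsUnit (φ g))
    (hs : ∀ a, ∃ (m : ℕ) (p : MvPolynomial (Fin N) R), φ g ^ m * a = φ p) : P (aff R L) := by
  let Q := MvPolynomial (Fin N) R ⧸ RingHom.ker φ
  let ψ : Q →ₐ[R] L := Ideal.kerLiftAlg φ
  have hψ : Function.Injective ψ := Ideal.kerLiftAlg_injective φ
  let gq : Q := Ideal.Quotient.mk _ g
  have h1 : P (aff R (Localization.Away gq)) := by
    refine ring_open hP gq ?_ (hA _)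
    exact of_surj hP hA ((Ideal.Quotient.mkₐ R (Ideal.span {gq})).comp (Ideal.Quotient.mkₐ R _))
      ((Ideal.Quotient.mkₐ_surjective R _).comp (Ideal.Quotient.mkₐ_surjective R _))
  let _ : Algebra Q L := ψ.toRingHom.toAlgebra
  have hloc : IsLocalization.Away gq L := by
    have hgq : algebraMap Q L gq = φ g := rfl
    refine ⟨?_, ?_, ?_⟩
    · rintro ⟨_, n, rfl⟩
      change IsUnit (algebraMap Q L (gq ^ n))
      rw [map_pow, hgq]
      exact hg.pow n
    · intro z
      obtain ⟨m, p, h⟩ := hs z
      refine ⟨(Ideal.Quotient.mk _ p, ⟨gq ^ m, m, rfl⟩), ?_⟩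
      change z * algebraMap Q L (gq ^ m) = φ p
      rw [map_pow, hgq, ← h, mul_comm]
    · intro x y hxy
      refine ⟨1, ?_⟩
      rw [hψ hxy]
  let e : Localization.Away gq ≃ₐ[Q] L :=
    IsLocalization.algEquiv (Submonoid.powers gq) (Localization.Away gq) L
  let e2 : Localization.Away gq ≃ₐ[R] L := AlgEquiv.ofRingEquiv (f := e.toRingEquiv) (by
    intro r
    change e (algebraMap R (Localization.Away gq) r) = _
    rw [IsScalarTower.algebraMap_apply R Q (Localization.Away gq), e.commutes]
    exact ψ.commutes r)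
  have : Algebra.FiniteType R (Localization.Away gq) :=
    Algebra.FiniteType.trans (S := Q) inferInstance inferInstance
  exact iso_alg hP e2 h1

end

section field

variable {k : Type} [Field k] {sep : Prop} {P : Sch k → Prop} (hP : Cls sep P)

include hP

/-- From closed subschemes of the affine space of dimension `n + 1` to affine schemes of dimension
at most `n`. -/
lemma closed_to_dim [PerfectField k] {n : ℕ} (h : ∀ I : Ideal (MvPolynomial (Fin (n + 1)) k),
    P (aff k (MvPolynomial (Fin (n + 1)) k ⧸ I))) (A : Type) [CommRing A] [Algebra k A]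
    [Algebra.FiniteType k A] (hA : ringKrullDim A ≤ n) : P (aff k A) := by
  refine noeth hP (fun B _ _ hB => p_empty hP (h ⊥) B hB) fun p hp => ?_
  have hd : ringKrullDim (A ⧸ p) ≤ n := (ringKrullDim_quotient_le p).trans hA
  obtain ⟨x, hx⟩ := Pool.Agent.Z125.UN.exists_gens k (A ⧸ p) n hd
  obtain ⟨w, hw, φ, g, h1, h2⟩ := Pool.Agent.Z125.UN.exists_emb x hx
  exact ⟨w, hw, p_emb hP h φ g h1 h2⟩

/-- From affine schemes of dimension at most `n` to all schemes of dimension at most `n`. -/
lemma of_affine_dim {n : ℕ} (h : ∀ (A : Type) [CommRing A] [Algebra k A]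
    [Algebra.FiniteType k A], ringKrullDim A ≤ n → P (aff k A)) (X : Sch k) (hX : FT sep X)
    (hn : topologicalKrullDim X.left ≤ n) : P X := by
  refine of_affine' (P := fun X => topologicalKrullDim X.left ≤ n → P X) (sep := sep) ?_ ?_ ?_ X
    hX hn
  · intro X Y hX e hPX hY
    refine hP.iso hX e (hPX ?_)
    obtain ⟨e⟩ := e
    let f := (Over.forget _).mapIso e
    exact (Topology.IsInducing.topologicalKrullDim_le
      (Scheme.homeoOfIso f).isInducing).trans hY
  · intro Z X U i j hX ht hZ hU hn
    refine hP.total i j hX ht (hZ ?_) (hU ?_)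
    · have h1 := (have := ht.closed; i.left.isClosedEmbedding.isInducing)
      exact h1.topologicalKrullDim_le.trans hn
    · have h1 := (have := ht.opened; j.left.isOpenEmbedding.isInducing)
      exact h1.topologicalKrullDim_le.trans hn
  · intro A _ _ _ hA
    rw [Pool.Agent.Z125.UN.topDim_aff] at hA
    exact h A hA

/-- The hypersurfaces in the affine space of dimension `n + 1` decide the property for all schemes of
dimension at most `n`. -/
theorem of_hyp [PerfectField k] {n : ℕ} (hA : P (aff k (MvPolynomial (Fin (n + 1)) k)))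
    (h : ∀ F : MvPolynomial (Fin (n + 1)) k,
      P (aff k (MvPolynomial (Fin (n + 1)) k ⧸ Ideal.span {F}))) (X : Sch k) (hX : FT sep X)
    (hn : topologicalKrullDim X.left ≤ n) : P X :=
  of_affine_dim hP (closed_to_dim hP (closed_all hP hA h)) X hX hn

end field

end Pool.Agent.Helper19.UA
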