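import Pool.Agent.Helper19.UA.Base
import Pool.Agent.Helper62.DB.Two0
import Pool.Graph.R_pool_sql_team_seeded_2aa45f1a.Q49.WU.Pair

/-!
# Double covers and families of properties which are shifted by affine bundles
-/

set_option autoImplicit false

open CategoryTheory AlgebraicGeometry Pool.Agent.Y116.UV Pool.Agent.Helper62.EC
  Pool.Agent.Helper62.DB Pool.Agent.Q49.WU

namespace Pool.Agent.Helper19.UA

section weight

variable {R : Type} [CommRing R] {sep : Prop} {W : ℤ → Sch R → Prop} (hW : WUni sep W)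

include hW

lemma cls (N : ℤ) : Cls sep (W N) where
  iso := hW.iso N
  total := hW.total N
  opened := hW.opened N
  closed := hW.closed N

/-- products with the affine line -/
lemma line {B : Type} [CommRing B] [Algebra R B] [Algebra.FiniteType R B] (N : ℤ) :
    W (N + 1) (aff R (Polynomial B)) ↔ W N (aff R B) := by
  have hr : Set.range (𝟙 (aff R B) : aff R B ⟶ aff R B).left =
      {x : PrimeSpectrum B | ∃ l, f1 B 1 l ∉ x.asIdeal} := by
    have h1 : Set.range (𝟙 (aff R B) : aff R B ⟶ aff R B).left = Set.univ := Set.range_id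
    have h2 : {x : PrimeSpectrum B | ∃ l, f1 B 1 l ∉ x.asIdeal} = Set.univ := by
      rw [Set.eq_univ_iff_forall]
      intro x
      exact ⟨0, fun h => x.isPrime.ne_top ((Ideal.eq_top_iff_one _).mpr h)⟩
    exact h1.trans h2.symm
  have hi : IsOpenImmersion (𝟙 (aff R B) : aff R B ⟶ aff R B).left :=
    inferInstanceAs (IsOpenImmersion (𝟙 (aff R B).left))
  have h := hW.jouanolou N B 2 (f1 B 1) (aff R B) (𝟙 _) hi hr
  rw [← h]
  have e : Jou (f1 B 1) ≃ₐ[R] Polynomial B :=
    ((jouOne B 1).trans (MvPolynomial.uniqueAlgEquiv B (Fin 1))).restrictScalars R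
  have h2 : N + ((2 : ℕ) - 1 : ℤ) = N + 1 := by norm_num
  rw [h2]
  constructor
  · intro h3
    exact Pool.Agent.Helper62.EC.iso_alg (cls hW (N + 1)) e.symm h3
  · intro h3
    have : Algebra.FiniteType R (Jou (f1 B 1)) :=
      Algebra.FiniteType.trans (S := B) inferInstance inferInstance
    exact Pool.Agent.Helper62.EC.iso_alg (cls hW (N + 1)) e h3

/-- The double cover `t ^ 2 - t = y f` and the hypersurface `f = 0`. -/
theorem dbl_at {D : Type} [CommRing D] [Algebra R D] [Algebra.FiniteType R D] (f : D) (N : ℤ)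
    (hD : W N (aff R D)) : W (N + 1) (aff R (Db f)) ↔ W N (aff R (D ⧸ Ideal.span {f})) := by
  rw [dbl_iff (cls hW (N + 1)) f ((line hW N).mpr hD), line hW N]

end weight

end Pool.Agent.Helper19.UA
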